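import Pool.Agent.Y808.DR.Fin4
import Pool.Agent.Y177.DR.TR2
import Pool.Agent.Y592.DR.PRD
import Pool.Agent.Y945.DR.ORD
import Pool.Agent.Y41.DR.SYS
import Pool.Agent.Y542.DR.WQ
import Pool.Agent.Y410.DR.FIND

/-!
# Descent of regularity of quotients along finite extensions: equal characteristic zero
-/

set_option autoImplicit false

namespace Pool.Agent.Results.MP_f322fd_al.EqualCharZero

universe u

/-- Let `A ⊆ B` be a finite extension of regular local rings containing `ℚ`, `p` a prime of `A`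
and `P = √(pB)`, and suppose that `B / P` is a regular local ring. Then `A / p` is a regular local
ring in each of the following cases: `dim A ≤ 3`; or `p` has height at most one; or
`dim A / p ≤ 1`; or `pB` is a power of `P`; or every element `x` of `P` satisfies an equation
`x ^ n + a₁ x ^ (n - 1) + ⋯ + aₙ = 0` with `aᵢ ∈ A ∩ P ^ i`. -/
theorem result (A B : Type u) [CommRing A] [CommRing B] [IsRegularLocalRing A]
    [IsRegularLocalRing B] [Algebra ℚ A] [Algebra A B] [Module.Finite A B]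
    (hinj : Function.Injective (algebraMap A B)) (p : Ideal A) [p.IsPrime] (P : Ideal B)
    (hP : P = (p.map (algebraMap A B)).radical) (hreg : IsRegularLocalRing (B ⧸ P))
    (h : ringKrullDim A ≤ 3 ∨ p.height ≤ 1 ∨ ringKrullDim (A ⧸ p) ≤ 1 ∨
      (∃ e : ℕ, p.map (algebraMap A B) = P ^ e) ∨
      (∀ x ∈ P, ∃ f : Polynomial A, f.Monic ∧ Polynomial.aeval x f = 0 ∧
        ∀ i ≤ f.natDegree, algebraMap A B (f.coeff (f.natDegree - i)) ∈ P ^ i)) :
    IsRegularLocalRing (A ⧸ p) := by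
  subst hP
  have h4 : p.height ≤ 1 → IsRegularLocalRing (A ⧸ p) := fun h =>
    Pool.Agent.Y808.DR.main4 Pool.Agent.Y177.DR.TR2.t_TR2 Pool.Agent.Y592.DR.t_PRD
      (Pool.Agent.Y945.DR.t_ORD Pool.Agent.Y153.DR.t_QR) Pool.Agent.Y41.DR.t_SYS
      Pool.Agent.Y542.DR.t_WQ Pool.Agent.Y410.DR.t_FIND A B hinj p hreg h
  have h1 : ringKrullDim (A ⧸ p) ≤ 1 → IsRegularLocalRing (A ⧸ p) := fun h =>
    Pool.Agent.Y808.DR.main1 A B hinj p hreg (Or.inr h)
  rcases h with h | h | h | ⟨e, h⟩ | h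
  · by_cases hh : p.height ≤ 1
    · exact h4 hh
    · exact h1 (Pool.Agent.Y808.DR.dim_quotient_le_one p h hh)
  · exact h4 h
  · exact h1 h
  · exact Pool.Agent.Y808.DR.main2 A B hinj p hreg e h
  · refine Pool.Agent.Y808.DR.main3 Pool.Agent.Y177.DR.TR2.t_TR2 Pool.Agent.Y592.DR.t_PRD
      (Pool.Agent.Y945.DR.t_ORD Pool.Agent.Y153.DR.t_QR) Pool.Agent.Y41.DR.t_SYS A B hinj p hreg ?_
    intro x hx
    obtain ⟨f, hf, hfx, hc⟩ := h x hx
    refine ⟨f, hf, hfx, fun i hi => ?_⟩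
    rw [mul_one]
    exact hc i hi

end Pool.Agent.Results.MP_f322fd_al.EqualCharZero
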