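import Mathlib
import Pool.Agent.Y379.RG.Exa

/-!
# Regularity of quotients does not descend, in every residue characteristic

For every prime `l` there are a finite injective homomorphism `A → B` of two-dimensional regular
local rings of characteristic zero with residue characteristic `l`, of degree `l`, and a prime `p`
of `A` such that `B / √(pB)` is regular while `A / p` is not.

More generally, let `A` be any two-dimensional regular local domain with maximal ideal `(π, x)`
such that `π ^ (n - j)` divides the binomial coefficient `n.choose j` for `0 < j < n`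
(for a prime `n = l` this holds as soon as `π ^ (l - 1)` divides `l`).  Then there is such a ring
`B`, free of rank `n` over `A`; the ideal `p` contains `x ^ n - π ^ (n + 1)`.
The ring `B` is generated by an element `w` with `(x - π w) ^ n = x ^ n - π ^ (n + 1)`.
-/

set_option autoImplicit false

open IsLocalRing

namespace Pool.Agent.Results.MP_f322fd_al.EveryResidueCharacteristic

open Pool.Agent.Y379.RG

/-- The general construction. -/
theorem general (A : Type) [CommRing A] [IsDomain A] [IsRegularLocalRing A] (n : ℕ) (π x : A)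
    (hn : 2 ≤ n) (hm : maximalIdeal A = Ideal.span {π, x}) (hdim : ringKrullDim A = 2)
    (hdvd : ∀ j : ℕ, 1 ≤ j → j < n → π ^ (n - j) ∣ (n.choose j : A)) :
    ∃ (B : Type) (_ : CommRing B) (_ : Algebra A B),
      IsRegularLocalRing B ∧ Function.Injective (algebraMap A B) ∧ Module.Finite A B ∧
      Module.Free A B ∧ Module.finrank A B = n ∧
      ∃ p : Ideal A, p.IsPrime ∧
        IsRegularLocalRing (B ⧸ (p.map (algebraMap A B)).radical) ∧
        x ^ n - π ^ (n + 1) ∈ p ∧ ¬ IsRegularLocalRing (A ⧸ p) := by
  obtain ⟨k, rfl⟩ : ∃ k, n = k + 1 := ⟨n - 1, by omega⟩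
  have hc : ∀ j : ℕ, ∃ c : A, j < k → ((k + 1).choose (j + 1) : A) = c * (-π) ^ (k - j) := by
    intro j
    by_cases hj : j < k
    · have h1 := hdvd (j + 1) (by omega) (by omega)
      rw [show k + 1 - (j + 1) = k - j by omega] at h1
      obtain ⟨c, hc⟩ := h1
      refine ⟨c * (-1) ^ (k - j), fun _ => ?_⟩
      rw [hc, neg_pow π]
      have h2 : ((-1 : A) ^ (k - j)) * (-1) ^ (k - j) = 1 := by
        rw [← mul_pow]
        simp
      linear_combination (-(π ^ (k - j) * c)) * h2
    · exact ⟨0, fun h => absurd h hj⟩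
  choose c hc using hc
  exact main (by omega) hm hdim (c := c) (fun j hj => hc j hj)

/-- divisibility of the binomial coefficients for a prime -/
theorem choose_dvd {A : Type} [CommRing A] {l : ℕ} (hl : l.Prime) {P : A}
    (hP : P ^ (l - 1) ∣ (l : A)) : ∀ j : ℕ, 1 ≤ j → j < l → P ^ (l - j) ∣ (l.choose j : A) := by
  intro j hj1 hj2
  have h1 : (l : A) ∣ (l.choose j : A) :=
    Nat.cast_dvd_cast (hl.dvd_choose_self (by omega) hj2)
  exact (pow_dvd_pow P (by omega)).trans (hP.trans h1)

theorem result :
    -- a counterexample to Q1 in every residue characteristic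
    (∀ l : ℕ, l.Prime → ∃ (A B : Type) (_ : CommRing A) (_ : CommRing B) (_ : Algebra A B)
      (_ : IsRegularLocalRing A), IsRegularLocalRing B ∧ CharZero A ∧ CharZero B ∧
      (l : A) ∈ maximalIdeal A ∧ ringKrullDim A = 2 ∧
      Function.Injective (algebraMap A B) ∧ Module.Finite A B ∧ Module.finrank A B = l ∧
      ∃ p : Ideal A, p.IsPrime ∧ IsRegularLocalRing (B ⧸ (p.map (algebraMap A B)).radical) ∧
        ¬ IsRegularLocalRing (A ⧸ p)) ∧
    -- the general construction
    (∀ (A : Type) [CommRing A] [IsDomain A] [IsRegularLocalRing A] (n : ℕ) (π x : A), 2 ≤ n →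
      maximalIdeal A = Ideal.span {π, x} → ringKrullDim A = 2 →
      ((∀ j : ℕ, 1 ≤ j → j < n → π ^ (n - j) ∣ (n.choose j : A)) ∨
        (n.Prime ∧ π ^ (n - 1) ∣ (n : A))) →
      ∃ (B : Type) (_ : CommRing B) (_ : Algebra A B),
        IsRegularLocalRing B ∧ Function.Injective (algebraMap A B) ∧ Module.Finite A B ∧
        Module.Free A B ∧ Module.finrank A B = n ∧
        ∃ p : Ideal A, p.IsPrime ∧
          IsRegularLocalRing (B ⧸ (p.map (algebraMap A B)).radical) ∧
          x ^ n - π ^ (n + 1) ∈ p ∧ ¬ IsRegularLocalRing (A ⧸ p)) := by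
  refine ⟨?_, fun A _ _ _ n π x hn hm hdim hdvd => general A n π x hn hm hdim
    (hdvd.elim id fun h => choose_dvd h.1 h.2)⟩
  intro l hl
  obtain ⟨A, _, _, hreg, P, X', hchar, hm, hdim, hP⟩ := exists_ring hl
  have hdvd := choose_dvd hl hP
  obtain ⟨B, _, _, hregB, hinj, hfin, _, hrank, p, hp, h1, _, h2⟩ :=
    general A l P X' hl.two_le hm hdim hdvd
  refine ⟨A, B, inferInstance, inferInstance, inferInstance, hreg, hregB, hchar,
    charZero_of_injective_algebraMap hinj, ?_, hdim, hinj, hfin, hrank, p, hp, h1, h2⟩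
  have hPm : P ∈ maximalIdeal A := by
    rw [hm]
    exact Ideal.subset_span (by simp)
  obtain ⟨t, ht⟩ := hP
  rw [ht]
  refine Ideal.mul_mem_right _ _ (Ideal.pow_mem_of_mem _ hPm _ ?_)
  have := hl.two_le
  omega

end Pool.Agent.Results.MP_f322fd_al.EveryResidueCharacteristic
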